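import Pool.Agent.Y417.SG.Main

set_option autoImplicit false

namespace Pool.Agent.Results.MP_e02861_gt.GulkoClosure

universe u

/-- `Z` is a Lindelöf Σ-space: `Z` is a continuous image of a Tychonoff space `P` which admits a
perfect map (continuous, closed, onto, with compact fibres) onto a separable metrizable space
`M`. -/
def LindelofSigma (Z : Type u) [TopologicalSpace Z] : Prop :=
  ∃ (P : Type u) (_ : TopologicalSpace P) (M : Type u) (_ : TopologicalSpace M),
    T35Space P ∧ TopologicalSpace.MetrizableSpace M ∧ TopologicalSpace.SeparableSpace M ∧
    (∃ p : P → M, Continuous p ∧ IsClosedMap p ∧ Function.Surjective p ∧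
      ∀ m, IsCompact (p ⁻¹' {m})) ∧
    ∃ q : P → Z, Continuous q ∧ Function.Surjective q

/-- `K` is Gul'ko compact: `K` is compact Hausdorff and the space of continuous real functions on
`K`, with the topology of pointwise convergence, is Lindelöf Σ. -/
def GulkoCompact (K : Type u) [TopologicalSpace K] : Prop :=
  CompactSpace K ∧ T2Space K ∧ LindelofSigma {g : K → ℝ // Continuous g}

/-- `X` is splittable over the class of Gul'ko compact spaces. -/
def SplittableOverGulko (X : Type u) [TopologicalSpace X] : Prop :=
  ∀ A : Set X, ∃ (Y : Type u) (_ : TopologicalSpace Y), GulkoCompact Y ∧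
    ∃ f : X → Y, Continuous f ∧ f ⁻¹' (f '' A) = A

/-- Every Hausdorff continuous image of a closed subspace of the product of a countable family of
compact spaces, each of them splittable over Gul'ko compacta, is Gul'ko compact, and hence
splittable over Gul'ko compacta. (For a family with one member and `F` the whole space: every
Hausdorff continuous image of a compact space splittable over Gul'ko compacta is Gul'ko compact; in
particular a compact space is splittable over Gul'ko compacta if and only if it is Gul'ko
compact.) -/
theorem result :
    ∀ (ι : Type) [Countable ι] (X : ι → Type u) [∀ i, TopologicalSpace (X i)]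
      [∀ i, CompactSpace (X i)] [∀ i, T2Space (X i)], (∀ i, SplittableOverGulko (X i)) →
      ∀ F : Set (∀ i, X i), IsClosed F → ∀ (Z : Type u) [TopologicalSpace Z] [T2Space Z]
        (g : F → Z), Continuous g → Function.Surjective g →
        GulkoCompact Z ∧ SplittableOverGulko Z := by
  intro ι _ X _ _ _ h F hF Z _ _ g hg hs
  have h1 := Pool.Agent.Y417.SG.gulko (X := X) h hF g hg hs
  exact ⟨h1, Pool.Agent.Y417.SG.splittable_of_gulko h1⟩

end Pool.Agent.Results.MP_e02861_gt.GulkoClosure
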